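import Mathlib

/-!
Frobenius varieties of numerical semigroups, minimal systems of generators relative to a
Frobenius variety, and the Wilf-type inequality.
-/

set_option autoImplicit false

namespace Pool.Agent.Helper29.Wilf

/-- A numerical semigroup: a submonoid of `(ℕ, +)` with finite complement. -/
structure IsNumSgp (S : Set ℕ) : Prop where
  zero_mem : 0 ∈ S
  add_mem : ∀ x ∈ S, ∀ y ∈ S, x + y ∈ S
  cofinite : Sᶜ.Finite

/-- The genus: the number of gaps. -/
noncomputable def genus (S : Set ℕ) : ℕ := Sᶜ.ncard

/-- The conductor `F(S) + 1`: the least `c` such that every `n ≥ c` lies in `S`. -/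
noncomputable def conductor (S : Set ℕ) : ℕ := sInf {c | ∀ n, c ≤ n → n ∈ S}

/-- A Frobenius variety: a nonempty family of numerical semigroups, closed under intersections of
two members, and under adding the Frobenius number `conductor S - 1` to a member `S ≠ ℕ`. -/
structure IsFrobeniusVariety (V : Set (Set ℕ)) : Prop where
  nonempty : V.Nonempty
  numSgp : ∀ S ∈ V, IsNumSgp S
  inter_mem : ∀ S ∈ V, ∀ T ∈ V, S ∩ T ∈ V
  union_frob_mem : ∀ S ∈ V, S ≠ Set.univ → S ∪ {conductor S - 1} ∈ V

/-- A `V`-monoid: an intersection of members of `V`. -/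
def IsVMonoid (V : Set (Set ℕ)) (M : Set ℕ) : Prop :=
  ∃ F : Set (Set ℕ), F ⊆ V ∧ F.Nonempty ∧ M = ⋂₀ F

/-- `V(A)`: the intersection of all `V`-monoids containing `A`. -/
def vSpan (V : Set (Set ℕ)) (A : Set ℕ) : Set ℕ := ⋂₀ {M | IsVMonoid V M ∧ A ⊆ M}

/-- `A` is a minimal `V`-system of generators of `S`: `V(A) = S`, and `V(B) ≠ V(A)` for every
proper subset `B` of `A`. -/
def IsMinimalSystem (V : Set (Set ℕ)) (S A : Set ℕ) : Prop :=
  vSpan V A = S ∧ ∀ B, B ⊂ A → vSpan V B ≠ vSpan V A

/-- The Wilf-type inequality `e_V(S) g(S) ≤ (e_V(S) - 1) (F(S) + 1)` for all `S ∈ V`, where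
`e_V(S)` is the cardinality of the (unique, finite) minimal `V`-system of generators of `S`. -/
def WilfType (V : Set (Set ℕ)) : Prop :=
  ∀ S ∈ V, ∀ A, IsMinimalSystem V S A →
    (A.ncard : ℤ) * (genus S : ℤ) ≤ ((A.ncard : ℤ) - 1) * (conductor S : ℤ)

variable {V : Set (Set ℕ)} {S T A : Set ℕ}

lemma IsNumSgp.nonempty_conductor (hS : IsNumSgp S) : {c | ∀ n, c ≤ n → n ∈ S}.Nonempty := by
  obtain ⟨b, hb⟩ := hS.cofinite.bddAbove
  refine ⟨b + 1, fun n hn => ?_⟩
  by_contra h
  have := hb h
  omega

lemma IsNumSgp.mem_of_conductor_le (hS : IsNumSgp S) {n : ℕ} (hn : conductor S ≤ n) : n ∈ S :=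
  Nat.sInf_mem hS.nonempty_conductor n hn

lemma conductor_le {c : ℕ} (h : ∀ n, c ≤ n → n ∈ S) : conductor S ≤ c := Nat.sInf_le h

lemma conductor_eq {c : ℕ} (h : ∀ n, c < n → n ∈ S) (hc : c ∉ S) : conductor S = c + 1 := by
  apply le_antisymm (conductor_le fun n hn => h n hn)
  by_contra hlt
  push Not at hlt
  have h1 : {c | ∀ n, c ≤ n → n ∈ S}.Nonempty := ⟨c + 1, fun n hn => h n hn⟩
  have h2 := Nat.sInf_mem h1
  exact hc (h2 c (by unfold conductor at hlt; omega))

/-- Adding all numbers from some point on. -/
lemma IsFrobeniusVariety.union_Ici_mem (hV : IsFrobeniusVariety V) (hS : S ∈ V) (t : ℕ) :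
    S ∪ Set.Ici t ∈ V := by
  have hN := hV.numSgp S hS
  have key : ∀ d, S ∪ Set.Ici (conductor S - d) ∈ V := by
    intro d
    induction d with
    | zero =>
      have : S ∪ Set.Ici (conductor S - 0) = S := by
        apply Set.union_eq_self_of_subset_right
        intro n hn
        exact hN.mem_of_conductor_le hn
      rwa [this]
    | succ d ih =>
      by_cases hd : conductor S ≤ d
      · have h1 : conductor S - (d + 1) = conductor S - d := by omega
        rwa [h1]
      · set u := conductor S - (d + 1) with hu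
        have hu1 : conductor S - d = u + 1 := by omega
        rw [hu1] at ih
        by_cases hmem : u ∈ S
        · have : S ∪ Set.Ici u = S ∪ Set.Ici (u + 1) := by
            ext n
            simp only [Set.mem_union, Set.mem_Ici]
            constructor
            · rintro (h | h)
              · exact Or.inl h
              · rcases Nat.eq_or_lt_of_le h with h | h
                · left
                  rwa [← h]
                · right
                  omega
            · rintro (h | h)
              · exact Or.inl h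
              · right
                omega
          rwa [this]
        · have hnot : u ∉ S ∪ Set.Ici (u + 1) := by
            simp only [Set.mem_union, Set.mem_Ici, not_or]
            exact ⟨hmem, by omega⟩
          have hne : S ∪ Set.Ici (u + 1) ≠ Set.univ := by
            intro h
            rw [h] at hnot
            exact hnot (Set.mem_univ _)
          have hc : conductor (S ∪ Set.Ici (u + 1)) = u + 1 := by
            apply conductor_eq _ hnot
            intro n hn
            right
            exact hn
          have h2 := hV.union_frob_mem _ ih hne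
          rw [hc, Nat.add_sub_cancel] at h2
          have : S ∪ Set.Ici u = S ∪ Set.Ici (u + 1) ∪ {u} := by
            ext n
            simp only [Set.mem_union, Set.mem_Ici, Set.mem_singleton_iff]
            constructor
            · rintro (h | h)
              · exact Or.inl (Or.inl h)
              · rcases Nat.eq_or_lt_of_le h with h | h
                · right
                  exact h.symm
                · left
                  right
                  omega
            · rintro ((h | h) | h)
              · exact Or.inl h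
              · right
                omega
              · right
                omega
          rwa [this]
  by_cases ht : t ≤ conductor S
  · have := key (conductor S - t)
    rwa [Nat.sub_sub_self ht] at this
  · have : S ∪ Set.Ici t = S := by
      apply Set.union_eq_self_of_subset_right
      intro n hn
      exact hN.mem_of_conductor_le (by simp only [Set.mem_Ici] at hn; omega)
    rwa [this]

lemma IsFrobeniusVariety.univ_mem (hV : IsFrobeniusVariety V) : Set.univ ∈ V := by
  obtain ⟨S, hS⟩ := hV.nonempty
  have := hV.union_Ici_mem hS 0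
  have h : S ∪ Set.Ici 0 = Set.univ := by
    ext n
    simp
  rwa [h] at this

lemma mem_vSpan (x : ℕ) : x ∈ vSpan V A ↔ ∀ S ∈ V, A ⊆ S → x ∈ S := by
  unfold vSpan
  constructor
  · intro h S hS hA
    exact h S ⟨⟨{S}, by simpa using hS, ⟨S, rfl⟩, by simp⟩, hA⟩
  · rintro h M ⟨⟨F, hF, -, rfl⟩, hA⟩ T hT
    exact h T (hF hT) (hA.trans (Set.sInter_subset_of_mem hT))

lemma subset_vSpan : A ⊆ vSpan V A := fun x hx => (mem_vSpan x).2 fun _ _ hA => hA hx

/-- The elements which can be removed inside `V`. -/
def vGens (V : Set (Set ℕ)) (S : Set ℕ) : Set ℕ := {x | x ∈ S ∧ x ≠ 0 ∧ S \ {x} ∈ V}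

lemma vGens_subset (h : vSpan V A = S) : vGens V S ⊆ A := by
  rintro x ⟨hxS, hx0, hx⟩
  by_contra hxA
  have h1 : A ⊆ S \ {x} := by
    intro y hy
    refine ⟨?_, ?_⟩
    · rw [← h]
      exact subset_vSpan hy
    · rintro rfl
      exact hxA hy
  have h2 : x ∈ vSpan V A := by rwa [h]
  exact ((mem_vSpan x).1 h2 _ hx h1).2 rfl

/-- The key step: between two members of `V` there is a member which misses one element only. -/
lemma IsFrobeniusVariety.exists_between (hV : IsFrobeniusVariety V) (hS : S ∈ V) (hT : T ∈ V)
    (hTS : T ⊂ S) : ∃ x ∈ vGens V S, x ∉ T := by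
  classical
  obtain ⟨hsub, hnot⟩ := hTS
  have hex : ∃ x, x ∈ S ∧ x ∉ T := by
    by_contra h
    push Not at h
    exact hnot h
  set x := Nat.find hex with hx
  have hxS : x ∈ S := (Nat.find_spec hex).1
  have hxT : x ∉ T := (Nat.find_spec hex).2
  have hmin : ∀ y, y < x → y ∈ S → y ∈ T := by
    intro y hy hyS
    by_contra hyT
    exact Nat.find_min hex hy ⟨hyS, hyT⟩
  refine ⟨x, ⟨hxS, ?_, ?_⟩, hxT⟩
  · intro h0
    apply hxT
    rw [h0]
    exact (hV.numSgp T hT).zero_mem
  · have h1 := hV.inter_mem _ hS _ (hV.union_Ici_mem hT (x + 1))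
    have h2 : S ∩ (T ∪ Set.Ici (x + 1)) = S \ {x} := by
      ext n
      simp only [Set.mem_inter_iff, Set.mem_union, Set.mem_Ici, Set.mem_sdiff,
        Set.mem_singleton_iff]
      constructor
      · rintro ⟨hn, h | h⟩
        · exact ⟨hn, fun h' => hxT (h' ▸ h)⟩
        · exact ⟨hn, by omega⟩
      · rintro ⟨hn, h⟩
        refine ⟨hn, ?_⟩
        rcases Nat.lt_trichotomy n x with h' | h' | h'
        · exact Or.inl (hmin n h' hn)
        · exact absurd h' h
        · right
          omega
    rwa [h2] at h1

lemma IsFrobeniusVariety.vSpan_vGens (hV : IsFrobeniusVariety V) (hS : S ∈ V) :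
    vSpan V (vGens V S) = S := by
  apply Set.Subset.antisymm
  · intro x hx
    exact (mem_vSpan x).1 hx S hS fun y hy => hy.1
  · intro x hx
    rw [mem_vSpan]
    intro R hR hA
    by_contra hxR
    have h1 := hV.inter_mem _ hS _ hR
    have h2 : S ∩ R ⊂ S := ⟨Set.inter_subset_left, fun h => hxR (h hx).2⟩
    obtain ⟨y, hy, hy'⟩ := hV.exists_between hS h1 h2
    exact hy' ⟨hy.1, hA hy⟩

/-- The unique minimal `V`-system of generators of `S ∈ V`. -/
lemma IsFrobeniusVariety.isMinimalSystem_iff (hV : IsFrobeniusVariety V) (hS : S ∈ V) :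
    IsMinimalSystem V S A ↔ A = vGens V S := by
  constructor
  · rintro ⟨h1, h2⟩
    by_contra hne
    have h3 : vGens V S ⊂ A := (vGens_subset h1).ssubset_of_ne
      (fun h => hne h.symm)
    apply h2 _ h3
    rw [h1, hV.vSpan_vGens hS]
  · rintro rfl
    refine ⟨hV.vSpan_vGens hS, ?_⟩
    intro B hB h
    rw [hV.vSpan_vGens hS] at h
    exact hB.2 (vGens_subset h)

/-- Existence and uniqueness of the minimal `V`-system of generators. -/
theorem IsFrobeniusVariety.existsUnique_minimalSystem (hV : IsFrobeniusVariety V) (hS : S ∈ V) :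
    ∃! A, IsMinimalSystem V S A :=
  ⟨vGens V S, (hV.isMinimalSystem_iff hS).2 rfl, fun _ h => (hV.isMinimalSystem_iff hS).1 h⟩

/-- An element which can be removed is not a sum of two others. -/
lemma IsFrobeniusVariety.not_add_of_mem_vGens (hV : IsFrobeniusVariety V) {x y z : ℕ}
    (hx : x ∈ vGens V S) (hy : y ∈ S) (hz : z ∈ S) (hy0 : y ≠ 0) (hz0 : z ≠ 0) : x ≠ y + z := by
  rintro rfl
  have h := (hV.numSgp _ hx.2.2).add_mem y ⟨hy, by simp only [Set.mem_singleton_iff]; omega⟩ z
    ⟨hz, by simp only [Set.mem_singleton_iff]; omega⟩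
  exact h.2 rfl

lemma IsFrobeniusVariety.lt_of_mem_vGens (hV : IsFrobeniusVariety V) (hS : S ∈ V) {x m : ℕ}
    (hm : m ∈ S) (hm0 : m ≠ 0) (hx : x ∈ vGens V S) : x < conductor S + m ∨ x = m := by
  by_contra h
  push Not at h
  have hN := hV.numSgp S hS
  by_cases hxm : x < m
  · omega
  · exact hV.not_add_of_mem_vGens hx hm (hN.mem_of_conductor_le (n := x - m) (by omega)) hm0
      (by omega) (by omega)

lemma IsFrobeniusVariety.vGens_finite (hV : IsFrobeniusVariety V) (hS : S ∈ V) :
    (vGens V S).Finite := by
  have hN := hV.numSgp S hS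
  have h1 : conductor S + 1 ∈ S := hN.mem_of_conductor_le (by omega)
  apply (Set.finite_Iio (2 * conductor S + 2)).subset
  intro x hx
  rcases hV.lt_of_mem_vGens hS h1 (by omega) hx with h | h
  · simp only [Set.mem_Iio]
    omega
  · simp only [Set.mem_Iio]
    omega

lemma IsFrobeniusVariety.wilfType_iff (hV : IsFrobeniusVariety V) :
    WilfType V ↔ ∀ S ∈ V, ((vGens V S).ncard : ℤ) * (genus S : ℤ) ≤
      (((vGens V S).ncard : ℤ) - 1) * (conductor S : ℤ) := by
  constructor
  · intro h S hS
    exact h S hS _ ((hV.isMinimalSystem_iff hS).2 rfl)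
  · intro h S hS A hA
    rw [(hV.isMinimalSystem_iff hS).1 hA]
    exact h S hS

end Pool.Agent.Helper29.Wilf
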