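import Pool.Agent.Helper29.Wilf.Many

/-!
Continuum many Frobenius varieties for which the Wilf-type inequality is equivalent to Wilf's
conjecture.
-/

set_option autoImplicit false

namespace Pool.Agent.Results.MP_f92f5b_al.ContinuumEquivalent

open Pool.Agent.Helper29.Wilf

/-- There is an injective family of Frobenius varieties, indexed by the subsets of `ℕ`, each of
which satisfies the Wilf-type inequality if and only if the family of all numerical semigroups
does. -/
theorem result : ∃ F : Set ℕ → Set (Set ℕ), Function.Injective F ∧
    ∀ A, IsFrobeniusVariety (F A) ∧ (WilfType (F A) ↔ WilfType {S | IsNumSgp S}) :=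
  ⟨without, without_injective, fun A => ⟨without_variety A, wilfType_without A⟩⟩

end Pool.Agent.Results.MP_f92f5b_al.ContinuumEquivalent
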