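import Pool.Agent.Helper29.Wilf.Basic

/-!
Numerical semigroups contained in every Frobenius variety `V ≠ {ℕ}` which satisfies the
Wilf-type inequality.
-/

set_option autoImplicit false

namespace Pool.Agent.Helper29.Wilf

variable {V : Set (Set ℕ)} {S T A : Set ℕ}

/-- When the inequality is tight enough, all candidates can be removed. -/
lemma IsFrobeniusVariety.force (hV : IsFrobeniusVariety V) (hW : WilfType V) (hS : S ∈ V)
    (B L : Finset ℕ) (hB : ∀ x ∈ vGens V S, x ∈ B)
    (hL : ∀ n ∈ S, n < conductor S → n ∈ L)
    (h : (B.card - 1) * L.card < conductor S) : ∀ x ∈ B, x ∈ vGens V S := by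
  classical
  have h1 := hV.wilfType_iff.1 hW S hS
  have hfin := hV.vGens_finite hS
  have hsub : hfin.toFinset ⊆ B := by
    intro x hx
    exact hB x (hfin.mem_toFinset.1 hx)
  have hcard : (vGens V S).ncard = hfin.toFinset.card := Set.ncard_eq_toFinset_card _ hfin
  -- the genus
  have hg : conductor S ≤ genus S + L.card := by
    have h2 : Finset.range (conductor S) ⊆ (hV.numSgp S hS).cofinite.toFinset ∪ L := by
      intro n hn
      rw [Finset.mem_range] at hn
      by_cases hnS : n ∈ S
      · exact Finset.mem_union_right _ (hL n hnS hn)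
      · apply Finset.mem_union_left
        rw [Set.Finite.mem_toFinset]
        exact hnS
    have h3 := (Finset.card_le_card h2).trans (Finset.card_union_le _ _)
    rw [Finset.card_range] at h3
    have h4 : genus S = (hV.numSgp S hS).cofinite.toFinset.card :=
      Set.ncard_eq_toFinset_card _ _
    omega
  by_contra hcon
  have hlt : hfin.toFinset.card < B.card := by
    apply Finset.card_lt_card
    refine ⟨hsub, fun h' => hcon fun x hx => hfin.mem_toFinset.1 (h' hx)⟩
  set e := hfin.toFinset.card with he
  rw [hcard] at h1
  have h5 : e ≤ B.card - 1 := by omega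
  have h6 : e * L.card < conductor S := lt_of_le_of_lt (Nat.mul_le_mul_right _ h5) h
  have h7 : (e : ℤ) * (L.card : ℤ) < (conductor S : ℤ) := by exact_mod_cast h6
  have h8 : (conductor S : ℤ) ≤ (genus S : ℤ) + (L.card : ℤ) := by exact_mod_cast hg
  nlinarith [Nat.cast_nonneg (α := ℤ) e]

/-- The semigroup of all multiples of `m` and all numbers `≥ k m`. -/
def stair (m k : ℕ) : Set ℕ := {n | m ∣ n ∨ k * m ≤ n}

lemma stair_one_two_mem (hV : IsFrobeniusVariety V) (hne : V ≠ {Set.univ}) : stair 2 1 ∈ V := by
  have h1 : ∃ S ∈ V, S ≠ Set.univ := by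
    by_contra h
    push Not at h
    apply hne
    ext S
    rw [Set.mem_singleton_iff]
    refine ⟨h S, ?_⟩
    rintro rfl
    exact hV.univ_mem
  obtain ⟨S, hS, hSne⟩ := h1
  have hN := hV.numSgp S hS
  have h1S : 1 ∉ S := by
    intro h1
    apply hSne
    ext n
    simp only [Set.mem_univ, iff_true]
    induction n with
    | zero => exact hN.zero_mem
    | succ n ih => exact hN.add_mem n ih 1 h1
  have h2 := hV.union_Ici_mem hS 2
  have h3 : S ∪ Set.Ici 2 = stair 2 1 := by
    ext n
    simp only [stair, Set.mem_union, Set.mem_Ici, Set.mem_ofPred_eq]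
    constructor
    · rintro (h | h)
      · by_cases hn : n = 0
        · left
          rw [hn]
          exact dvd_zero 2
        · right
          rcases Nat.lt_or_ge n 2 with h' | h'
          · have : n = 1 := by omega
            subst this
            exact absurd h h1S
          · omega
      · right
        omega
    · rintro (h | h)
      · rcases Nat.eq_zero_or_pos n with h' | h'
        · subst h'
          exact Or.inl hN.zero_mem
        · right
          exact Nat.le_of_dvd h' h
      · right
        omega
  rwa [h3] at h2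

lemma stair_zero_mem {m k : ℕ} : 0 ∈ stair m k := Or.inl (dvd_zero m)

lemma conductor_stair {m k : ℕ} (hm : 2 ≤ m) (hk : 1 ≤ k) : conductor (stair m k) = k * m := by
  have h0 : 1 ≤ k * m := by nlinarith
  have h1 : conductor (stair m k) = (k * m - 1) + 1 := by
    apply conductor_eq
    · intro n hn
      right
      omega
    · rintro (h | h)
      · have h2 : m ∣ k * m - (k * m - 1) := Nat.dvd_sub (Dvd.intro_left k rfl) h
        have h3 : k * m - (k * m - 1) = 1 := by omega
        rw [h3] at h2
        have := Nat.le_of_dvd one_pos h2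
        omega
      · omega
  omega

/-- If `stair m k ∈ V`, all its generators can be removed. -/
lemma vGens_stair (hV : IsFrobeniusVariety V) (hW : WilfType V) {m k : ℕ} (hm : 2 ≤ m)
    (hk : 1 ≤ k) (hS : stair m k ∈ V) :
    m ∈ vGens V (stair m k) ∧ ∀ x, k * m < x → x < (k + 1) * m → x ∈ vGens V (stair m k) := by
  classical
  have hkm : m ≤ k * m := by nlinarith
  have key := hV.force hW hS (insert m (Finset.Ioo (k * m) ((k + 1) * m)))
    ((Finset.range k).image fun i => i * m) ?_ ?_ ?_
  · constructor
    · exact key m (Finset.mem_insert_self _ _)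
    · intro x h1 h2
      exact key x (Finset.mem_insert_of_mem (Finset.mem_Ioo.2 ⟨h1, h2⟩))
  · intro x hx
    rw [Finset.mem_insert, Finset.mem_Ioo]
    by_cases hxm : x = m
    · exact Or.inl hxm
    right
    have hmS : m ∈ stair m k := Or.inl (dvd_refl m)
    have h1 : ∀ y ∈ stair m k, y ≠ 0 → x ≠ m + y := fun y hy hy0 =>
      hV.not_add_of_mem_vGens hx hmS hy (by omega) hy0
    obtain ⟨hxS, hx0, -⟩ := hx
    rcases Classical.em (m ∣ x) with hd | hd
    · exfalso
      have hle := Nat.le_of_dvd (Nat.pos_of_ne_zero hx0) hd
      exact h1 (x - m) (Or.inl (Nat.dvd_sub hd (dvd_refl m))) (by omega) (by omega)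
    · have hx1 : k * m ≤ x := by
        rcases hxS with h | h
        · exact absurd h hd
        · exact h
      constructor
      · rcases Nat.eq_or_lt_of_le hx1 with h | h
        · exact absurd (h ▸ Dvd.intro_left k rfl) hd
        · exact h
      · by_contra hge
        push Not at hge
        have h2 : (k + 1) * m = k * m + m := by ring
        exact h1 (x - m) (Or.inr (by omega)) (by omega) (by omega)
  · intro n hn hlt
    rw [conductor_stair hm hk] at hlt
    rw [Finset.mem_image]
    rcases hn with h | h
    · obtain ⟨i, rfl⟩ := h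
      refine ⟨i, ?_, by ring⟩
      rw [Finset.mem_range]
      by_contra hki
      push Not at hki
      nlinarith
    · omega
  · rw [conductor_stair hm hk]
    have h1 : (insert m (Finset.Ioo (k * m) ((k + 1) * m))).card ≤ m := by
      apply (Finset.card_insert_le _ _).trans
      rw [Nat.card_Ioo]
      have : (k + 1) * m = k * m + m := by ring
      omega
    have h2 : ((Finset.range k).image fun i => i * m).card ≤ k := by
      apply Finset.card_image_le.trans
      rw [Finset.card_range]
    calc _ ≤ (m - 1) * k := Nat.mul_le_mul (by omega) h2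
      _ < k * m := by
        obtain ⟨m', rfl⟩ : ∃ m', m = m' + 1 := ⟨m - 1, by omega⟩
        rw [Nat.add_sub_cancel]
        nlinarith

lemma diff_finset_mem (hV : IsFrobeniusVariety V) (hS : S ∈ V) (X : Finset ℕ)
    (hX : ∀ x ∈ X, S \ {x} ∈ V) : S \ (X : Set ℕ) ∈ V := by
  classical
  induction X using Finset.induction_on with
  | empty => simpa using hS
  | insert x X hx ih =>
    have h1 := ih fun y hy => hX y (Finset.mem_insert_of_mem hy)
    have h2 := hX x (Finset.mem_insert_self _ _)
    have h3 := hV.inter_mem _ h1 _ h2
    have h4 : S \ ((insert x X : Finset ℕ) : Set ℕ) = (S \ (X : Set ℕ)) ∩ (S \ {x}) := by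
      ext n
      simp only [Set.mem_sdiff, Finset.coe_insert, Set.mem_insert_iff, Set.mem_inter_iff,
        Set.mem_singleton_iff, Finset.mem_coe]
      tauto
    rwa [h4]

lemma stair_one_mem (hV : IsFrobeniusVariety V) (hne : V ≠ {Set.univ}) (hW : WilfType V)
    {m : ℕ} (hm : 2 ≤ m) : stair m 1 ∈ V := by
  induction m, hm using Nat.le_induction with
  | base => exact stair_one_two_mem hV hne
  | succ m hm ih =>
    have h1 := (vGens_stair hV hW hm le_rfl ih).1.2.2
    have h2 : stair m 1 \ {m} = stair (m + 1) 1 := by
      ext n
      simp only [stair, Set.mem_sdiff, Set.mem_ofPred_eq, Set.mem_singleton_iff]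
      constructor
      · rintro ⟨h | h, h'⟩
        · rcases Nat.eq_zero_or_pos n with h0 | h0
          · left
            rw [h0]
            exact dvd_zero _
          · have := Nat.le_of_dvd h0 h
            right
            omega
        · right
          omega
      · rintro (h | h)
        · rcases Nat.eq_zero_or_pos n with h0 | h0
          · refine ⟨?_, by omega⟩
            left
            rw [h0]
            exact dvd_zero _
          · have := Nat.le_of_dvd h0 h
            exact ⟨Or.inr (by omega), by omega⟩
        · exact ⟨Or.inr (by omega), by omega⟩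
    rwa [h2] at h1

lemma stair_mem (hV : IsFrobeniusVariety V) (hne : V ≠ {Set.univ}) (hW : WilfType V)
    {m k : ℕ} (hm : 1 ≤ m) : stair m k ∈ V := by
  rcases Nat.eq_or_lt_of_le hm with h | hm2
  · have : stair m k = Set.univ := by
      ext n
      simp only [stair, Set.mem_ofPred_eq, Set.mem_univ, iff_true]
      left
      rw [← h]
      exact one_dvd n
    rw [this]
    exact hV.univ_mem
  rcases Nat.eq_zero_or_pos k with h0 | hk
  · have : stair m k = Set.univ := by
      ext n
      simp only [stair, Set.mem_ofPred_eq, Set.mem_univ, iff_true]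
      right
      rw [h0]
      omega
    rw [this]
    exact hV.univ_mem
  induction k, hk using Nat.le_induction with
  | base => exact stair_one_mem hV hne hW hm2
  | succ k hk ih =>
    have h1 := (vGens_stair hV hW hm2 hk ih).2
    have h2 := diff_finset_mem hV ih (Finset.Ioo (k * m) ((k + 1) * m)) (fun x hx =>
      (h1 x (Finset.mem_Ioo.1 hx).1 (Finset.mem_Ioo.1 hx).2).2.2)
    have h3 : stair m k \ ((Finset.Ioo (k * m) ((k + 1) * m) : Finset ℕ) : Set ℕ) =
        stair m (k + 1) := by
      ext n
      simp only [stair, Set.mem_sdiff, Set.mem_ofPred_eq, Finset.coe_Ioo, Set.mem_Ioo, not_and,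
        not_lt]
      have hexp : (k + 1) * m = k * m + m := by ring
      constructor
      · rintro ⟨h | h, h'⟩
        · exact Or.inl h
        · rcases Nat.eq_or_lt_of_le h with h4 | h4
          · left
            rw [← h4]
            exact Dvd.intro_left k rfl
          · right
            exact h' h4
      · rintro (h | h)
        · refine ⟨Or.inl h, fun h4 => ?_⟩
          obtain ⟨i, rfl⟩ := h
          have : k < i := by
            by_contra h5
            push Not at h5
            nlinarith
          nlinarith
        · exact ⟨Or.inr (by omega), fun _ => h⟩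
    rwa [h3] at h2

/-- All numerical semigroups which consist of the multiples of `m` up to `k m` and contain
everything from `(k + 1) m` on. -/
theorem mem_of_stair (hV : IsFrobeniusVariety V) (hne : V ≠ {Set.univ}) (hW : WilfType V)
    {m k : ℕ} (hm : 1 ≤ m) (hk : 1 ≤ k) (h1 : ∀ n, n ≤ k * m → (n ∈ S ↔ m ∣ n))
    (h2 : ∀ n, (k + 1) * m ≤ n → n ∈ S) : S ∈ V := by
  classical
  have hexp : (k + 1) * m = k * m + m := by ring
  rcases Nat.eq_or_lt_of_le hm with h | hm2
  · have : S = Set.univ := by
      ext n
      simp only [Set.mem_univ, iff_true]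
      rcases Nat.lt_or_ge n (k * m + 1) with hn | hn
      · exact (h1 n (by omega)).2 (by rw [← h]; exact one_dvd n)
      · exact h2 n (by omega)
    rw [this]
    exact hV.univ_mem
  · have hst := stair_mem hV hne hW (k := k) hm
    have h3 := diff_finset_mem hV hst ((Finset.Ioo (k * m) ((k + 1) * m)).filter (· ∉ S))
      (fun x hx => by
        rw [Finset.mem_filter, Finset.mem_Ioo] at hx
        exact ((vGens_stair hV hW hm2 hk hst).2 x hx.1.1 hx.1.2).2.2)
    have h4 : stair m k \ (((Finset.Ioo (k * m) ((k + 1) * m)).filter (· ∉ S) : Finset ℕ) :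
        Set ℕ) = S := by
      ext n
      simp only [stair, Set.mem_sdiff, Set.mem_ofPred_eq, Finset.coe_filter, Finset.mem_Ioo]
      constructor
      · rintro ⟨h | h, h'⟩
        · rcases Nat.lt_or_ge (k * m) n with h5 | h5
          · by_contra hn
            exact h' ⟨⟨h5, by
              by_contra h6
              exact hn (h2 n (by omega))⟩, hn⟩
          · exact (h1 n h5).2 h
        · rcases Nat.eq_or_lt_of_le h with h5 | h5
          · exact (h1 n (by omega)).2 (h5 ▸ Dvd.intro_left k rfl)
          · by_contra hn
            exact h' ⟨⟨h5, by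
              by_contra h6
              exact hn (h2 n (by omega))⟩, hn⟩
      · intro hn
        refine ⟨?_, fun h => h.2 hn⟩
        rcases Nat.lt_or_ge (k * m) n with h5 | h5
        · exact Or.inr h5.le
        · exact Or.inl ((h1 n h5).1 hn)
    rwa [h4] at h3

/-- The semigroup of multiplicity (at most) three: multiples of `3`, the numbers
`≡ 1` from `3 i + 1` on and the numbers `≡ 2` from `3 j + 2` on. -/
def three (i j : ℕ) : Set ℕ :=
  {n | n % 3 = 0 ∨ (n % 3 = 1 ∧ 3 * i + 1 ≤ n) ∨ (n % 3 = 2 ∧ 3 * j + 2 ≤ n)}

lemma three_diag (i : ℕ) : three i i = stair 3 i := by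
  ext n
  simp only [three, stair, Set.mem_ofPred_eq, Nat.dvd_iff_mod_eq_zero]
  omega

lemma vGens_three_subset (hV : IsFrobeniusVariety V) {i j : ℕ} :
    ∀ x ∈ vGens V (three i j), x ∈ ({3, 3 * i + 1, 3 * j + 2} : Finset ℕ) := by
  intro x hx
  simp only [Finset.mem_insert, Finset.mem_singleton]
  by_contra h
  push Not at h
  have h3 : 3 ∈ three i j := Or.inl rfl
  have h4 : ∀ y ∈ three i j, y ≠ 0 → x ≠ 3 + y := fun y hy hy0 =>
    hV.not_add_of_mem_vGens hx h3 hy (by omega) hy0
  obtain ⟨hxS, hx0, -⟩ := hx
  have h5 : x - 3 ∈ three i j := by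
    simp only [three, Set.mem_ofPred_eq] at hxS ⊢
    omega
  have h6 : 3 < x := by
    by_contra h7
    simp only [three, Set.mem_ofPred_eq] at hxS
    have h8 : x = 1 ∨ x = 2 := by omega
    rcases h8 with rfl | rfl <;> omega
  exact h4 _ h5 (by omega) (by omega)

lemma card_three (i j : ℕ) : ({3, 3 * i + 1, 3 * j + 2} : Finset ℕ).card ≤ 3 := Finset.card_le_three

lemma three_diff_right {i j : ℕ} : three i j \ {3 * j + 2} = three i (j + 1) := by
  ext n
  simp only [three, Set.mem_sdiff, Set.mem_ofPred_eq, Set.mem_singleton_iff]
  omega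

lemma three_diff_left {i j : ℕ} : three i j \ {3 * i + 1} = three (i + 1) j := by
  ext n
  simp only [three, Set.mem_sdiff, Set.mem_ofPred_eq, Set.mem_singleton_iff]
  omega

lemma three_step_right (hV : IsFrobeniusVariety V) (hW : WilfType V) {i j : ℕ}
    (hij : i ≤ j) (hj : j + 1 ≤ 2 * i) (hS : three i j ∈ V) : three i (j + 1) ∈ V := by
  classical
  have hc : conductor (three i j) = 3 * j := by
    have : conductor (three i j) = (3 * j - 1) + 1 := by
      apply conductor_eq
      · intro n hn
        simp only [three, Set.mem_ofPred_eq]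
        omega
      · simp only [three, Set.mem_ofPred_eq]
        omega
    omega
  have key := hV.force hW hS {3, 3 * i + 1, 3 * j + 2}
    ((Finset.range j).image (fun t => 3 * t) ∪ (Finset.Ico i j).image (fun t => 3 * t + 1))
    (vGens_three_subset hV) ?_ ?_
  · rw [← three_diff_right]
    exact (key (3 * j + 2) (by simp)).2.2
  · intro n hn hlt
    rw [hc] at hlt
    simp only [three, Set.mem_ofPred_eq] at hn
    simp only [Finset.mem_union, Finset.mem_image, Finset.mem_range, Finset.mem_Ico]
    rcases hn with h | h | h
    · left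
      exact ⟨n / 3, by omega, by omega⟩
    · right
      exact ⟨n / 3, by omega, by omega⟩
    · omega
  · rw [hc]
    have h1 := card_three i j
    have h2 : ((Finset.range j).image (fun t => 3 * t) ∪
        (Finset.Ico i j).image (fun t => 3 * t + 1)).card ≤ j + (j - i) := by
      apply (Finset.card_union_le _ _).trans
      apply Nat.add_le_add
      · apply Finset.card_image_le.trans
        rw [Finset.card_range]
      · apply Finset.card_image_le.trans
        rw [Nat.card_Ico]
    calc _ ≤ 2 * (j + (j - i)) := Nat.mul_le_mul (by omega) h2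
      _ < 3 * j := by omega

lemma three_step_left (hV : IsFrobeniusVariety V) (hne : V ≠ {Set.univ}) (hW : WilfType V)
    {i j : ℕ} (hij : j ≤ i) (hi : i ≤ 2 * j) (hS : three i j ∈ V) : three (i + 1) j ∈ V := by
  classical
  rcases Nat.eq_or_lt_of_le hij with h | hij
  · subst h
    rcases Nat.eq_zero_or_pos j with h0 | h0
    · subst h0
      have h1 := stair_mem hV hne hW (m := 2) (k := 1) (by omega)
      have h2 : stair 2 1 = three (0 + 1) 0 := by
        ext n
        simp only [three, stair, Set.mem_ofPred_eq, Nat.dvd_iff_mod_eq_zero]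
        omega
      rwa [h2] at h1
    · rw [← three_diff_left, three_diag]
      rw [three_diag] at hS
      exact ((vGens_stair hV hW (by norm_num) h0 hS).2 (3 * j + 1) (by omega) (by omega)).2.2
  have hc : conductor (three i j) = 3 * i - 1 := by
    have : conductor (three i j) = (3 * i - 2) + 1 := by
      apply conductor_eq
      · intro n hn
        simp only [three, Set.mem_ofPred_eq]
        omega
      · simp only [three, Set.mem_ofPred_eq]
        omega
    omega
  have key := hV.force hW hS {3, 3 * i + 1, 3 * j + 2}
    ((Finset.range i).image (fun t => 3 * t) ∪ (Finset.Ico j (i - 1)).image (fun t => 3 * t + 2))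
    (vGens_three_subset hV) ?_ ?_
  · rw [← three_diff_left]
    exact (key (3 * i + 1) (by simp)).2.2
  · intro n hn hlt
    rw [hc] at hlt
    simp only [three, Set.mem_ofPred_eq] at hn
    simp only [Finset.mem_union, Finset.mem_image, Finset.mem_range, Finset.mem_Ico]
    rcases hn with h | h | h
    · left
      exact ⟨n / 3, by omega, by omega⟩
    · omega
    · right
      exact ⟨n / 3, by omega, by omega⟩
  · rw [hc]
    have h1 := card_three i j
    have h2 : ((Finset.range i).image (fun t => 3 * t) ∪
        (Finset.Ico j (i - 1)).image (fun t => 3 * t + 2)).card ≤ i + (i - 1 - j) := by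
      apply (Finset.card_union_le _ _).trans
      apply Nat.add_le_add
      · apply Finset.card_image_le.trans
        rw [Finset.card_range]
      · apply Finset.card_image_le.trans
        rw [Nat.card_Ico]
    calc _ ≤ 2 * (i + (i - 1 - j)) := Nat.mul_le_mul (by omega) h2
      _ < 3 * i - 1 := by omega

lemma three_mem (hV : IsFrobeniusVariety V) (hne : V ≠ {Set.univ}) (hW : WilfType V)
    {i j : ℕ} (h1 : j ≤ 2 * i) (h2 : i ≤ 2 * j + 1) : three i j ∈ V := by
  have hd : ∀ t, three t t ∈ V := by
    intro t
    rw [three_diag]
    exact stair_mem hV hne hW (by norm_num)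
  rcases Nat.lt_or_ge j i with h | h
  · have : ∀ d, j + d ≤ 2 * j + 1 → three (j + d) j ∈ V := by
      intro d
      induction d with
      | zero => exact fun _ => hd j
      | succ d ih =>
        intro hle
        exact three_step_left (i := j + d) hV hne hW (by omega) (by omega) (ih (by omega))
    have := this (i - j) (by omega)
    rwa [show j + (i - j) = i by omega] at this
  · have : ∀ d, i + d ≤ 2 * i → three i (i + d) ∈ V := by
      intro d
      induction d with
      | zero => exact fun _ => hd i
      | succ d ih =>
        intro hle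
        exact three_step_right (j := i + d) hV hW (by omega) (by omega) (ih (by omega))
    have := this (j - i) (by omega)
    rwa [show i + (j - i) = j by omega] at this

/-- Every numerical semigroup which contains `3`. -/
theorem mem_of_three (hV : IsFrobeniusVariety V) (hne : V ≠ {Set.univ}) (hW : WilfType V)
    (hS : IsNumSgp S) (h3 : 3 ∈ S) : S ∈ V := by
  classical
  have hmul : ∀ t x, x ∈ S → x + 3 * t ∈ S := by
    intro t x hx
    induction t with
    | zero => simpa using hx
    | succ t ih =>
      have := hS.add_mem _ ih _ h3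
      rwa [show x + 3 * (t + 1) = x + 3 * t + 3 by ring]
  have hex1 : ∃ i, 3 * i + 1 ∈ S := ⟨conductor S, hS.mem_of_conductor_le (by omega)⟩
  have hex2 : ∃ j, 3 * j + 2 ∈ S := ⟨conductor S, hS.mem_of_conductor_le (by omega)⟩
  set i := Nat.find hex1 with hi
  set j := Nat.find hex2 with hj
  have hi1 : 3 * i + 1 ∈ S := Nat.find_spec hex1
  have hj1 : 3 * j + 2 ∈ S := Nat.find_spec hex2
  have hi2 : ∀ t, 3 * t + 1 ∈ S → i ≤ t := fun t ht => Nat.find_min' hex1 ht
  have hj2 : ∀ t, 3 * t + 2 ∈ S → j ≤ t := fun t ht => Nat.find_min' hex2 ht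
  have e1 : S = three i j := by
    ext n
    simp only [three, Set.mem_ofPred_eq]
    constructor
    · intro hn
      have h0 : n % 3 = 0 ∨ n % 3 = 1 ∨ n % 3 = 2 := by omega
      rcases h0 with h | h | h
      · exact Or.inl h
      · right
        left
        have := hi2 (n / 3) (by rwa [show 3 * (n / 3) + 1 = n by omega])
        omega
      · right
        right
        have := hj2 (n / 3) (by rwa [show 3 * (n / 3) + 2 = n by omega])
        omega
    · rintro (h | h | h)
      · have := hmul (n / 3) 0 hS.zero_mem
        rwa [show 0 + 3 * (n / 3) = n by omega] at this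
      · have := hmul ((n - (3 * i + 1)) / 3) _ hi1
        rwa [show 3 * i + 1 + 3 * ((n - (3 * i + 1)) / 3) = n by omega] at this
      · have := hmul ((n - (3 * j + 2)) / 3) _ hj1
        rwa [show 3 * j + 2 + 3 * ((n - (3 * j + 2)) / 3) = n by omega] at this
  rw [e1]
  apply three_mem hV hne hW
  · apply hj2
    have := hS.add_mem _ hi1 _ hi1
    rwa [show 3 * (2 * i) + 2 = 3 * i + 1 + (3 * i + 1) by ring]
  · apply hi2
    have := hS.add_mem _ hj1 _ hj1
    rwa [show 3 * (2 * j + 1) + 1 = 3 * j + 2 + (3 * j + 2) by ring]

end Pool.Agent.Helper29.Wilf
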