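import Pool.Agent.Helper29.Wilf.Basic

/-!
Continuum many Frobenius varieties for which the Wilf-type inequality is equivalent to Wilf's
conjecture.
-/

set_option autoImplicit false

namespace Pool.Agent.Helper29.Wilf

variable {V : Set (Set ℕ)} {S T A : Set ℕ}

/-- The family of all numerical semigroups. -/
def allSgp : Set (Set ℕ) := {S | IsNumSgp S}

lemma IsNumSgp.inter (hS : IsNumSgp S) (hT : IsNumSgp T) : IsNumSgp (S ∩ T) := by
  refine ⟨⟨hS.zero_mem, hT.zero_mem⟩, fun x hx y hy =>
    ⟨hS.add_mem x hx.1 y hy.1, hT.add_mem x hx.2 y hy.2⟩, ?_⟩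
  rw [Set.compl_inter]
  exact hS.cofinite.union hT.cofinite

lemma IsNumSgp.conductor_pos (hS : IsNumSgp S) (h : S ≠ Set.univ) : 1 ≤ conductor S := by
  by_contra hc
  apply h
  ext n
  simp only [Set.mem_univ, iff_true]
  exact hS.mem_of_conductor_le (by omega)

lemma IsNumSgp.pred_conductor (hS : IsNumSgp S) (h : S ≠ Set.univ) : conductor S - 1 ∉ S := by
  intro hmem
  have h1 := hS.conductor_pos h
  have h2 : conductor S ≤ conductor S - 1 := by
    apply conductor_le
    intro n hn
    rcases Nat.eq_or_lt_of_le hn with h3 | h3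
    · rwa [← h3]
    · exact hS.mem_of_conductor_le (by omega)
  omega

lemma IsNumSgp.union_frob (hS : IsNumSgp S) (h : S ≠ Set.univ) :
    IsNumSgp (S ∪ {conductor S - 1}) := by
  have h1 := hS.conductor_pos h
  have h2 := hS.pred_conductor h
  have h3 : conductor S - 1 ≠ 0 := fun h0 => h2 (h0 ▸ hS.zero_mem)
  refine ⟨Or.inl hS.zero_mem, ?_, ?_⟩
  · rintro x (hx | hx) y (hy | hy)
    · exact Or.inl (hS.add_mem x hx y hy)
    · rw [Set.mem_singleton_iff] at hy
      subst hy
      rcases Nat.eq_zero_or_pos x with h0 | h0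
      · right
        simp [h0]
      · left
        exact hS.mem_of_conductor_le (by omega)
    · rw [Set.mem_singleton_iff] at hx
      subst hx
      rcases Nat.eq_zero_or_pos y with h0 | h0
      · right
        simp [h0]
      · left
        exact hS.mem_of_conductor_le (by omega)
    · rw [Set.mem_singleton_iff] at hx hy
      subst hx
      subst hy
      left
      exact hS.mem_of_conductor_le (by omega)
  · exact hS.cofinite.subset (Set.compl_subset_compl.2 Set.subset_union_left)

lemma allSgp_variety : IsFrobeniusVariety allSgp := by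
  refine ⟨⟨Set.univ, Set.mem_univ _, fun _ _ _ _ => Set.mem_univ _, by simp⟩, fun _ h => h,
    fun S hS T hT => IsNumSgp.inter hS hT, fun S hS h => IsNumSgp.union_frob hS h⟩

/-- Removing an element which is not a sum. -/
lemma IsNumSgp.diff (hS : IsNumSgp S) {x : ℕ} (hx0 : x ≠ 0)
    (hx : ∀ y ∈ S, ∀ z ∈ S, y ≠ 0 → z ≠ 0 → x ≠ y + z) : IsNumSgp (S \ {x}) := by
  refine ⟨⟨hS.zero_mem, fun h => hx0 h.symm⟩, ?_, ?_⟩
  · rintro y ⟨hy, hyx⟩ z ⟨hz, hzx⟩
    refine ⟨hS.add_mem y hy z hz, ?_⟩
    rw [Set.mem_singleton_iff] at hyx hzx ⊢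
    rcases Nat.eq_zero_or_pos y with h0 | h0
    · rw [h0, Nat.zero_add]
      exact hzx
    rcases Nat.eq_zero_or_pos z with h1 | h1
    · rw [h1, Nat.add_zero]
      exact hyx
    exact fun h => hx y hy z hz (by omega) (by omega) h.symm
  · have : (S \ {x})ᶜ = Sᶜ ∪ {x} := by
      ext n
      simp only [Set.mem_compl_iff, Set.mem_sdiff, Set.mem_singleton_iff, Set.mem_union]
      tauto
    rw [this]
    exact hS.cofinite.union (Set.finite_singleton x)

lemma IsNumSgp.genus_le_conductor (hS : IsNumSgp S) : genus S ≤ conductor S := by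
  have h1 : Sᶜ ⊆ (Finset.range (conductor S) : Set ℕ) := by
    intro n hn
    rw [Finset.mem_coe, Finset.mem_range]
    by_contra h
    exact hn (hS.mem_of_conductor_le (by omega))
  have h2 := Set.ncard_le_ncard h1 (Finset.finite_toSet _)
  rwa [Set.ncard_coe_finset, Finset.card_range] at h2

lemma ineq_mono {e e' g c : ℕ} (he : e ≤ e') (hg : g ≤ c)
    (h : (e : ℤ) * (g : ℤ) ≤ ((e : ℤ) - 1) * (c : ℤ)) :
    (e' : ℤ) * (g : ℤ) ≤ ((e' : ℤ) - 1) * (c : ℤ) := by
  have h1 : (e : ℤ) ≤ e' := by exact_mod_cast he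
  have h2 : (g : ℤ) ≤ c := by exact_mod_cast hg
  nlinarith

/-- The symmetric numerical semigroup generated by `4, 6, 2 j + 1`. -/
def sym (j : ℕ) : Set ℕ := {n | (n % 2 = 0 ∧ n ≠ 2) ∨ (n % 2 = 1 ∧ 2 * j + 1 ≤ n ∧ n ≠ 2 * j + 3)}

lemma mem_sym {j n : ℕ} : n ∈ sym j ↔
    (n % 2 = 0 ∧ n ≠ 2) ∨ (n % 2 = 1 ∧ 2 * j + 1 ≤ n ∧ n ≠ 2 * j + 3) := Iff.rfl

lemma isNumSgp_sym {j : ℕ} (hj : 3 ≤ j) : IsNumSgp (sym j) := by
  refine ⟨by rw [mem_sym]; omega, ?_, ?_⟩
  · intro x hx y hy
    rw [mem_sym] at hx hy ⊢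
    omega
  · apply (Set.finite_Iio (2 * j + 4)).subset
    intro n hn
    rw [Set.mem_compl_iff, mem_sym] at hn
    rw [Set.mem_Iio]
    omega

lemma sym_injective {j j' : ℕ} (h : sym j = sym j') : j = j' := by
  have h1 : 2 * j + 1 ∈ sym j := by
    rw [mem_sym]
    omega
  have h2 : 2 * j' + 1 ∈ sym j' := by
    rw [mem_sym]
    omega
  rw [h, mem_sym] at h1
  rw [← h, mem_sym] at h2
  omega

/-- `sym j` is irreducible. -/
lemma frob_mem_of_sym_ssubset {j : ℕ} (hT : IsNumSgp T) (hsub : sym j ⊆ T)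
    (hne : T ≠ sym j) : 2 * j + 3 ∈ T := by
  have h1 : ∃ x, x ∈ T ∧ x ∉ sym j := by
    by_contra h
    push Not at h
    exact hne (Set.Subset.antisymm h hsub)
  obtain ⟨x, hx, hxs⟩ := h1
  have h2 : ∀ y, y ∈ sym j → y ∈ T := fun y hy => hsub hy
  by_cases h3 : x = 2 * j + 3
  · rwa [← h3]
  have h4 : x ≤ 2 * j + 3 ∧ 2 * j + 3 - x ∈ sym j := by
    rw [mem_sym] at hxs ⊢
    omega
  have h5 := hT.add_mem x hx _ (h2 _ h4.2)
  rwa [Nat.add_sub_cancel' h4.1] at h5

/-- `sym j` has no children. -/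
lemma union_frob_ne_sym {j : ℕ} (hj : 3 ≤ j) (hS : IsNumSgp S) (h : S ≠ Set.univ) :
    S ∪ {conductor S - 1} ≠ sym j := by
  intro heq
  have h1 := hS.conductor_pos h
  have h2 := hS.pred_conductor h
  set f := conductor S - 1 with hf
  have h3 : f ∈ sym j := by
    rw [← heq]
    exact Or.inr rfl
  have h4 : ∀ n, n ∈ sym j → n ≠ f → n ∈ S := by
    intro n hn hnf
    rw [← heq] at hn
    rcases hn with hn | hn
    · exact hn
    · exact absurd hn hnf
  have h5 : 2 * j + 3 ∉ S := by
    intro h6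
    have : 2 * j + 3 ∈ sym j := by
      rw [← heq]
      exact Or.inl h6
    rw [mem_sym] at this
    omega
  have h6 : 2 * j + 3 ≤ f := by
    by_contra h7
    exact h5 (hS.mem_of_conductor_le (by omega))
  rw [mem_sym] at h3
  by_cases h7 : f = 2 * j + 7
  · have h8 : 6 ∈ S := h4 6 (by rw [mem_sym]; omega) (by omega)
    have h9 : 2 * j + 1 ∈ S := h4 _ (by rw [mem_sym]; omega) (by omega)
    apply h2
    have := hS.add_mem _ h9 _ h8
    rwa [show 2 * j + 1 + 6 = f by omega] at this
  · have h8 : 4 ∈ S := h4 4 (by rw [mem_sym]; omega) (by omega)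
    have h9 : f - 4 ∈ S := h4 _ (by rw [mem_sym]; omega) (by omega)
    apply h2
    have := hS.add_mem _ h9 _ h8
    rwa [show f - 4 + 4 = f by omega] at this

/-- The family of all numerical semigroups except `sym (j + 3)`, `j ∈ A`. -/
def without (A : Set ℕ) : Set (Set ℕ) := {S | IsNumSgp S ∧ ∀ j ∈ A, S ≠ sym (j + 3)}

lemma without_variety (A : Set ℕ) : IsFrobeniusVariety (without A) := by
  refine ⟨⟨Set.univ, ⟨Set.mem_univ _, fun _ _ _ _ => Set.mem_univ _, by simp⟩, ?_⟩,
    fun _ h => h.1, ?_, ?_⟩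
  · intro j _ h
    have : 2 ∈ sym (j + 3) := by
      rw [← h]
      exact Set.mem_univ _
    rw [mem_sym] at this
    omega
  · rintro S ⟨hS, hSA⟩ T ⟨hT, hTA⟩
    refine ⟨hS.inter hT, fun j hj h => ?_⟩
    have h1 := frob_mem_of_sym_ssubset hS (h ▸ Set.inter_subset_left) (hSA j hj)
    have h2 := frob_mem_of_sym_ssubset hT (h ▸ Set.inter_subset_right) (hTA j hj)
    have h3 : 2 * (j + 3) + 3 ∈ sym (j + 3) := by
      rw [← h]
      exact ⟨h1, h2⟩
    rw [mem_sym] at h3
    omega
  · rintro S ⟨hS, -⟩ h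
    exact ⟨hS.union_frob h, fun j _ => union_frob_ne_sym (by omega) hS h⟩

lemma eq_of_diff_eq_sym {j x : ℕ} (hS : IsNumSgp S) (hx : x ∈ S) (h : S \ {x} = sym j) :
    x = 2 * j + 3 := by
  have h1 : sym j ⊆ S := by
    rw [← h]
    exact Set.sdiff_subset
  have h2 : S ≠ sym j := by
    intro h3
    rw [← h3] at h
    have : x ∈ S \ {x} := by
      rw [h]
      exact hx
    exact this.2 rfl
  have h3 := frob_mem_of_sym_ssubset hS h1 h2
  by_contra h4
  have h5 : 2 * j + 3 ∈ sym j := by
    rw [← h]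
    exact ⟨h3, fun h6 => h4 h6.symm⟩
  rw [mem_sym] at h5
  omega

lemma mem_vGens_without {x : ℕ} : x ∈ vGens (without A) S ↔
    x ∈ vGens allSgp S ∧ ∀ j ∈ A, S \ {x} ≠ sym (j + 3) := by
  unfold vGens without allSgp
  simp only [Set.mem_ofPred_eq]
  tauto

lemma vGens_without_subset : vGens (without A) S ⊆ vGens allSgp S :=
  fun _ hx => (mem_vGens_without.1 hx).1

/-- The parent of `sym j`. -/
def par (j : ℕ) : Set ℕ := {n | (n % 2 = 0 ∧ n ≠ 2) ∨ (n % 2 = 1 ∧ 2 * j + 1 ≤ n)}

lemma mem_par {j n : ℕ} : n ∈ par j ↔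
    (n % 2 = 0 ∧ n ≠ 2) ∨ (n % 2 = 1 ∧ 2 * j + 1 ≤ n) := Iff.rfl

lemma eq_par_of_diff {j x : ℕ} (hS : IsNumSgp S) (hx : x ∈ S) (h : S \ {x} = sym j) :
    S = par j := by
  have hx' := eq_of_diff_eq_sym hS hx h
  ext n
  have h1 : n ∈ S ↔ n ∈ sym j ∨ n = x := by
    rw [← h]
    simp only [Set.mem_sdiff, Set.mem_singleton_iff]
    constructor
    · intro hn
      tauto
    · rintro (hn | hn)
      · exact hn.1
      · rwa [hn]
  rw [h1, mem_sym, mem_par]
  omega

lemma isNumSgp_par {j : ℕ} (hj : 3 ≤ j) : IsNumSgp (par j) := by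
  refine ⟨by rw [mem_par]; omega, ?_, ?_⟩
  · intro x hx y hy
    rw [mem_par] at hx hy ⊢
    omega
  · apply (Set.finite_Iio (2 * j + 4)).subset
    intro n hn
    rw [Set.mem_compl_iff, mem_par] at hn
    rw [Set.mem_Iio]
    omega

lemma par_gens {j : ℕ} (hj : 3 ≤ j) :
    ({4, 6, 2 * j + 1} : Finset ℕ) ⊆ (allSgp_variety.vGens_finite (isNumSgp_par hj)).toFinset := by
  intro x hx
  rw [Set.Finite.mem_toFinset]
  simp only [Finset.mem_insert, Finset.mem_singleton] at hx
  refine ⟨?_, by omega, ?_⟩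
  · rw [mem_par]
    omega
  · apply (isNumSgp_par hj).diff (by omega)
    intro y hy z hz hy0 hz0
    rw [mem_par] at hy hz
    omega

lemma three_le_par {j : ℕ} (hj : 3 ≤ j) (A : Set ℕ) :
    3 ≤ (vGens (without A) (par j)).ncard := by
  have h1 : (({4, 6, 2 * j + 1} : Finset ℕ) : Set ℕ) ⊆ vGens (without A) (par j) := by
    intro x hx
    have hx' := par_gens hj hx
    rw [Set.Finite.mem_toFinset] at hx'
    rw [mem_vGens_without]
    refine ⟨hx', fun i hi h => ?_⟩
    have h2 := eq_of_diff_eq_sym (isNumSgp_par hj) hx'.1 h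
    rw [Finset.mem_coe] at hx
    simp only [Finset.mem_insert, Finset.mem_singleton] at hx
    have h3 : 2 * (i + 3) + 1 ∈ par j \ {x} := by
      rw [h, mem_sym]
      omega
    have h4 := h3.1
    rw [mem_par] at h4
    omega
  have h2 := Set.ncard_le_ncard h1
    ((allSgp_variety.vGens_finite (isNumSgp_par hj)).subset vGens_without_subset)
  rw [Set.ncard_coe_finset] at h2
  have h3 : ({4, 6, 2 * j + 1} : Finset ℕ).card = 3 := by
    rw [Finset.card_eq_three]
    exact ⟨4, 6, 2 * j + 1, by omega, by omega, by omega, rfl⟩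
  omega

lemma conductor_par {j : ℕ} (hj : 3 ≤ j) : conductor (par j) = 2 * j := by
  have : conductor (par j) = (2 * j - 1) + 1 := by
    apply conductor_eq
    · intro n hn
      rw [mem_par]
      omega
    · rw [mem_par]
      omega
  omega

lemma genus_par {j : ℕ} : genus (par j) ≤ j + 1 := by
  classical
  have h1 : (par j)ᶜ ⊆ ((insert 2 ((Finset.range j).image fun t => 2 * t + 1) : Finset ℕ) :
      Set ℕ) := by
    intro n hn
    rw [Set.mem_compl_iff, mem_par] at hn
    rw [Finset.mem_coe, Finset.mem_insert, Finset.mem_image]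
    by_cases h : n = 2
    · exact Or.inl h
    · right
      exact ⟨n / 2, by rw [Finset.mem_range]; omega, by omega⟩
  have h2 := Set.ncard_le_ncard h1 (Finset.finite_toSet _)
  rw [Set.ncard_coe_finset] at h2
  apply h2.trans
  apply (Finset.card_insert_le _ _).trans
  have h3 := Finset.card_image_le (s := Finset.range j) (f := fun t => 2 * t + 1)
  rw [Finset.card_range] at h3
  omega

lemma conductor_sym {j : ℕ} (hj : 3 ≤ j) : conductor (sym j) = 2 * j + 4 := by
  have : conductor (sym j) = (2 * j + 3) + 1 := by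
    apply conductor_eq
    · intro n hn
      rw [mem_sym]
      omega
    · rw [mem_sym]
      omega
  omega

lemma genus_sym {j : ℕ} : genus (sym j) ≤ j + 2 := by
  classical
  have h1 : (sym j)ᶜ ⊆ ((insert 2 (insert (2 * j + 3) ((Finset.range j).image
      fun t => 2 * t + 1)) : Finset ℕ) : Set ℕ) := by
    intro n hn
    rw [Set.mem_compl_iff, mem_sym] at hn
    rw [Finset.mem_coe, Finset.mem_insert, Finset.mem_insert, Finset.mem_image]
    by_cases h : n = 2
    · exact Or.inl h
    · right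
      by_cases h' : n = 2 * j + 3
      · exact Or.inl h'
      · right
        exact ⟨n / 2, by rw [Finset.mem_range]; omega, by omega⟩
  have h2 := Set.ncard_le_ncard h1 (Finset.finite_toSet _)
  rw [Set.ncard_coe_finset] at h2
  apply h2.trans
  apply (Finset.card_insert_le _ _).trans
  have h3 := Finset.card_insert_le (2 * j + 3) ((Finset.range j).image fun t => 2 * t + 1)
  have h4 := Finset.card_image_le (s := Finset.range j) (f := fun t => 2 * t + 1)
  rw [Finset.card_range] at h4
  omega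

lemma two_le_sym {j : ℕ} (hj : 3 ≤ j) : 2 ≤ (vGens allSgp (sym j)).ncard := by
  have h1 : (({4, 6} : Finset ℕ) : Set ℕ) ⊆ vGens allSgp (sym j) := by
    intro x hx
    rw [Finset.mem_coe] at hx
    simp only [Finset.mem_insert, Finset.mem_singleton] at hx
    refine ⟨?_, by omega, ?_⟩
    · rw [mem_sym]
      omega
    · apply (isNumSgp_sym hj).diff (by omega)
      intro y hy z hz hy0 hz0
      rw [mem_sym] at hy hz
      omega
  have h2 := Set.ncard_le_ncard h1 (allSgp_variety.vGens_finite (isNumSgp_sym hj))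
  rw [Set.ncard_coe_finset] at h2
  have h3 : ({4, 6} : Finset ℕ).card = 2 := by decide
  omega

/-- For each of the varieties `without A` the Wilf-type inequality is equivalent to Wilf's
conjecture. -/
theorem wilfType_without (A : Set ℕ) : WilfType (without A) ↔ WilfType allSgp := by
  rw [(without_variety A).wilfType_iff, allSgp_variety.wilfType_iff]
  constructor
  · intro h S hS
    have hSn : IsNumSgp S := hS
    by_cases hSA : ∀ j ∈ A, S ≠ sym (j + 3)
    · apply ineq_mono _ hSn.genus_le_conductor (h S ⟨hS, hSA⟩)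
      exact Set.ncard_le_ncard vGens_without_subset (allSgp_variety.vGens_finite hS)
    · push Not at hSA
      obtain ⟨j, -, rfl⟩ := hSA
      have h1 := two_le_sym (j := j + 3) (by omega)
      have h2 := conductor_sym (j := j + 3) (by omega)
      have h3 := genus_sym (j := j + 3)
      apply ineq_mono h1 hSn.genus_le_conductor
      rw [h2]
      push_cast
      have h4 : (genus (sym (j + 3)) : ℤ) ≤ (j : ℤ) + 3 + 2 := by exact_mod_cast h3
      linarith
  · rintro h S ⟨hS, hSA⟩
    by_cases hpar : ∃ j, S = par (j + 3)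
    · obtain ⟨j, rfl⟩ := hpar
      have h1 := three_le_par (j := j + 3) (by omega) A
      have h2 := conductor_par (j := j + 3) (by omega)
      have h3 := genus_par (j := j + 3)
      apply ineq_mono h1 hS.genus_le_conductor
      rw [h2]
      push_cast
      have h4 : (genus (par (j + 3)) : ℤ) ≤ (j : ℤ) + 3 + 1 := by exact_mod_cast h3
      linarith
    · have h1 : vGens (without A) S = vGens allSgp S := by
        apply Set.Subset.antisymm vGens_without_subset
        intro x hx
        rw [mem_vGens_without]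
        refine ⟨hx, fun j _ hj => hpar ⟨j, ?_⟩⟩
        exact eq_par_of_diff hS hx.1 hj
      rw [h1]
      exact h S hS

lemma without_injective : Function.Injective without := by
  intro A B h
  have key : ∀ (C : Set ℕ) (j : ℕ), j ∈ C ↔ sym (j + 3) ∉ without C := by
    intro C j
    constructor
    · intro hj h1
      exact h1.2 j hj rfl
    · intro h1
      by_contra hj
      apply h1
      refine ⟨isNumSgp_sym (by omega), fun i hi h2 => ?_⟩
      have := sym_injective h2
      have : j = i := by omega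
      exact hj (this ▸ hi)
  ext j
  rw [key A, key B, h]

end Pool.Agent.Helper29.Wilf
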